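import Pool.Agent.H85.SC.Defs

/-!
# The complexity of the synthesis property: targets of the modules
-/

open Filter Topology

namespace Pool.Agent.H85.SC

open Pool.Agent.H87.Synth

/-! ## A. Arithmetic and combinatorics -/

/-- growth of the positions -/
def T_NNA : Prop :=
  (∀ r, 0 < NN r) ∧ (∀ r, 16 * NN r ≤ NN (r + 1)) ∧ (∀ r r', r < r' → 16 * NN r ≤ NN r') ∧
    ∀ r, r + 2 ≤ NN r

/-- divisibility of the positions -/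
def T_DIV : Prop :=
  ∀ n i, Valid n i →
    (4 ^ (Nat.size n + 1) * PP (lvl n i)) ∣ NN (slot n i) ∧
    (4 ^ (Nat.size n + 1) * PP (lvl n i)) ^ 2 ≤ NN (slot n i)

/-- slots -/
def T_SLT : Prop :=
  (∀ n i n' i', Valid n i → Valid n' i' → slot n i = slot n' i' → n = n' ∧ i = i') ∧
  (∀ n i n' i', Valid n i → Valid n' i' → i < i' → slot n i < slot n' i') ∧
  (∀ n i, Valid n i → 1 ≤ slot n i ∧ n < i)

/-- regions of different stations are disjoint -/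
def T_UNQ : Prop :=
  ∀ n i n' i' z, Reg n i z → Reg n' i' z → n = n' ∧ i = i'

/-- labels, weights and signs on the regions -/
def T_LAB : Prop :=
  (∀ S n i z, n ∈ S → Reg n i z → lab S z = labAt S n i z) ∧
  (∀ S z, (∀ n i, n ∈ S → ¬ Reg n i z) → lab S z = Lab.sg z) ∧
  (∀ S z w, lab S z = Lab.sg w → z = w) ∧
  (∀ S n i z, n ∈ S → Reg n i z → GG S z =
    (if i = 1 ∧ s1 n i z = s2 n i z ∧ s1 n i z = s3 n i z then 0 else wt n i z)) ∧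
  (∀ S z, (∀ n i, n ∈ S → ¬ Reg n i z) → GG S z = 0) ∧
  (∀ n i z, Reg n i z → (s1 n i z = 1 ∨ s1 n i z = -1) ∧ (s2 n i z = 1 ∨ s2 n i z = -1) ∧
    (s3 n i z = 1 ∨ s3 n i z = -1))

/-- arithmetic of the base four numbers `cc n` -/
def T_CCA : Prop :=
  cc 0 = 0 ∧ (∀ n, 0 ≤ cc n ∧ cc n < 4 ^ Nat.size n) ∧
  (∀ n a, n < 2 ^ a → cc (n + 2 ^ a) = cc n + 2 * 4 ^ a) ∧
  (∀ n m, cc n = cc m → n = m) ∧
  (∀ n a, (4 : ℤ) ^ a ∣ cc n - cc (n % 2 ^ a))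

/-- arithmetic progressions -/
def T_APD : Prop :=
  (∀ n n' z, inh n z → inh n' z → n = n') ∧
  (∀ n n' z, ing n z → ing n' z → n = n') ∧
  (∀ n n' z, inh n z → ¬ ing n' z) ∧
  (∀ n a, n < 2 ^ a → ∀ z, ind (inK n a) z = ind (inK n (a + 1)) z +
    ind (fun z => (4 : ℤ) ^ (a + 1) ∣ z - cc n - 4 ^ a) z + ind (inK (n + 2 ^ a) (a + 1)) z +
    ind (fun z => (4 : ℤ) ^ (a + 1) ∣ z - cc n - 3 * 4 ^ a) z) ∧
  (∀ n a n' z, Nat.size n < a → ((4 : ℤ) ^ (a + 1) ∣ z - cc n - 4 ^ a ∨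
    (4 : ℤ) ^ (a + 1) ∣ z - cc n - 3 * 4 ^ a) → ¬ inh n' z ∧ ¬ ing n' z) ∧
  (∀ n n', ¬ inh n' (cc n) ∧ ¬ ing n' (cc n)) ∧
  (∀ S, IsTree S → ∀ c, c ∉ S → ∀ z, inK c (Nat.size c) z → ∀ n', inh n' z ∨ ing n' z → n' ∉ S)

/-- the fibres of the labelling -/
def T_FIB : Prop :=
  ∀ S, IsTree S →
    (∀ n i s z, lab S z = Lab.inn n i s ↔
      n ∈ S ∧ Valid n i ∧ i ≠ 1 ∧ (z ∈ FA n i s ∨ z ∈ EM n i s)) ∧
    (∀ n i z, lab S z = Lab.lst n i ↔ n ∈ S ∧ i ≠ 2 ^ lg i ∧ (z ∈ FS n i 1 ∨ z ∈ FS n i (-1))) ∧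
    (∀ n i z, lab S z = Lab.ldr n i ↔ n ∈ S ∧ Valid n i ∧ i + 1 = 2 ^ (lg i + 1) ∧
      n + 2 ^ lg i ∉ S ∧ (z ∈ FD n i 1 ∨ z ∈ FD n i (-1)))

/-- disjointness of the pieces, and the partition of a region -/
def T_DSJ : Prop :=
  (∀ n i s, Valid n i → i ≠ 1 → Disjoint (FA n i s) (EM n i s)) ∧
  (∀ n i, Disjoint (FA n i 1) (FA n i (-1)) ∧ Disjoint (FS n i 1) (FS n i (-1)) ∧
    Disjoint (FD n i 1) (FD n i (-1))) ∧
  (∀ n i, Valid n i → ∀ g : ℤ → ℂ, ∑ z ∈ RS n i, g z = gA g n i + gS g n i + gD g n i)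

/-- the classes are finite -/
def T_FIN : Prop := ∀ S, IsTree S → ∀ n, {m | rel S n m}.Finite

/-- numbers of points with given signs -/
def T_CNT : Prop :=
  ∀ n i, Valid n i → ∀ s : ℤ, s = 1 ∨ s = -1 →
    (FA n i s).card = cnt n i ∧ (FS n i s).card = cnt n i ∧ (FD n i s).card = 2 * cnt n i

/-- the numbers `cnt` -/
def T_CNB : Prop :=
  ∀ n i, Valid n i → 0 < cnt n i ∧
    (NN (slot n i) : ℝ) / cnt n i = 4 ^ (Nat.size n + 1) * PP (lvl n i) /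
      (((pr (lvl n i) 0 - 1) / 2 * ((pr (lvl n i) 1 - 1) / 2) * ((pr (lvl n i) 2 - 1) / 2) : ℕ) : ℝ) ∧
    (4 ^ (Nat.size n + 1) * PP (lvl n i) : ℝ) /
      (((pr (lvl n i) 0 - 1) / 2 * ((pr (lvl n i) 1 - 1) / 2) * ((pr (lvl n i) 2 - 1) / 2) : ℕ) : ℝ)
      ≤ 27 * 4 ^ (Nat.size n + 1)

/-- the weights sum to zero on the classes -/
def T_GSM : Prop :=
  ∀ S, IsTree S → ∀ (C : Finset ℤ) (z : ℤ), (∀ w, w ∈ C ↔ rel S z w) → ∑ w ∈ C, GG S w = 0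

/-- the function of a branch is constant on the classes -/
def T_PCC : Prop :=
  ∀ S, IsTree S → ∀ v a, IsBr S v a → ∀ F : ℤ → ℂ, (∀ n i z, Reg n i z → F z = pv v a n i z) →
    ∀ m n, rel S m n → F m = F n

/-- sums over `[0, NN M)` of functions supported in the regions of the nodes of `S` -/
def T_PRT : Prop :=
  ∀ (S : Set ℕ) (h : ℤ → ℂ), (∀ z, (∀ n i, n ∈ S → ¬ Reg n i z) → h z = 0) → ∀ M,
    ∑ z ∈ Finset.Ico (0 : ℤ) (NN M), h z = ∑ p ∈ stn S M, ∑ z ∈ RS p.1 p.2, h z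

/-- the pairing over one station -/
def T_STS : Prop :=
  ∀ S v a, IsBr S v a → ∀ n i, n ∈ S → Valid n i →
    ∑ z ∈ RS n i, GG S z * pv v a n i z = if i = 1 then 2 else 0

/-- the pairing of the weight and the function of a branch -/
def T_PPR : Prop :=
  ∀ S, IsTree S → ∀ v a, IsBr S v a → ∀ F : ℤ → ℂ, (∀ n i z, Reg n i z → F z = pv v a n i z) →
    ∀ M, 2 ≤ M → ∑ z ∈ Finset.Ico (0 : ℤ) (NN M), GG S z * F z = 2

/-- values of the cut-offs on the slots -/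
def T_VVS : Prop :=
  (∀ (r : ℕ) (z : ℤ), |z| ≤ 2 * NN r → VV r z = 1) ∧
  (∀ (r : ℕ) (z : ℤ), (NN (r + 1) : ℤ) ≤ |z| → VV r z = 0) ∧
  (∀ (r : ℕ) (z : ℤ), 0 ≤ VV r z ∧ VV r z ≤ 1) ∧
  (∀ (r r' : ℕ) (z : ℤ), (NN r' : ℤ) ≤ z → z < 2 * NN r' → VV r z = if r' ≤ r then 1 else 0)

/-- values of the pieces -/
def T_PVL : Prop :=
  ∀ n i n' i' z, Valid n i → Reg n' i' z → pm n i z =
    if n' = n ∧ i' = i then
      (1 / 2) ^ lvl n i * (((s1 n i z : ℂ) + s2 n i z) / 4 + (s3 n i z : ℂ) / 2)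
    else if n' = n ∧ i = 2 ^ lg i ∧ i' = 2 ^ lg i' ∧ i' < i then
      (1 / 2) ^ lvl n i' * (((s1 n i' z : ℂ) + s2 n i' z) / 2)
    else 0

/-- telescoping over the stations of a node -/
def T_TEL : Prop :=
  ∀ S, IsTree S → ∀ g : ℤ → ℂ, Rels S g → ∀ n ∈ S, ∀ a, Nat.size n ≤ a →
    ∑ i ∈ Finset.Ico (2 ^ Nat.size n) (2 ^ (a + 1)), ∑ z ∈ RS n i, g z =
      gA g n (2 ^ Nat.size n) + gS g n (2 ^ a) -
        ∑ b ∈ kids S n (a + 1), gA g (n + 2 ^ b) (2 ^ (b + 1))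

/-- the sum over the progressions of a node, cut off, is the sum over its stations -/
def T_SUP : Prop :=
  ∀ S, IsTree S → ∀ g : ℤ → ℂ, (∀ z, lab S z = Lab.sg z → g z = 0) → ∀ n ∈ S, ∀ a,
    Nat.size n ≤ a → ∀ r, r = slot n (2 ^ (a + 1) - 1) →
    ∑ z ∈ Finset.Ioo (-(NN (r + 1) : ℤ)) (NN (r + 1)),
      (ind (inh n) z + ind (ing n) z) * VV r z * g z =
    ∑ i ∈ Finset.Ico (2 ^ Nat.size n) (2 ^ (a + 1)), ∑ z ∈ RS n i, g z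

/-- the stay points are selected by a periodic multiplier and a difference of cut-offs -/
def T_SUX : Prop :=
  ∀ S, IsTree S → ∀ g : ℤ → ℂ, (∀ z, lab S z = Lab.sg z → g z = 0) → ∀ n ∈ S, ∀ a,
    Nat.size n ≤ a → ∀ r, r = slot n (2 ^ a) →
    ∑ z ∈ Finset.Ioo (-(NN (r + 1) : ℤ)) (NN (r + 1)),
      tr n a z * ((VV r z : ℂ) - VV (r - 1) z) * g z = gS g n (2 ^ a)

/-! ## B. Fourier analysis -/

/-- alternating sums of averages of `w^z` over lacunary slots -/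
def T_ALT : Prop :=
  ∀ N : ℕ → ℕ, (∀ a, 0 < N a ∧ 16 * N a ≤ N (a + 1)) → ∀ (w : ℂ), ‖w‖ = 1 → ∀ L : ℕ,
    ‖∑ a ∈ Finset.range L, (-1) ^ a * av (N a) (fun _ => 1) w‖ ≤ 6 ∧
    (w ≠ 1 → ‖∑ a ∈ Finset.range L, (-1) ^ a * av (N a) (fun _ => 1) w‖ ≤ 3 / (N 0 * ‖w - 1‖))

/-- the sum over the `D`-th roots of unity -/
def T_ROO : Prop :=
  ∀ D : ℕ, 0 < D → ∀ N : ℕ → ℕ, (∀ a, 0 < N a ∧ 16 * N a ≤ N (a + 1)) → D ^ 2 ≤ N 0 →
    ∀ (w : ℂ), ‖w‖ = 1 → ∀ L : ℕ,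
    ∑ k ∈ Finset.range D,
      ‖∑ a ∈ Finset.range L, (-1) ^ a * av (N a) (fun _ => 1) (w * ze D ^ k)‖ ≤ 9

/-- expansion of the indicator function of an arithmetic progression -/
def T_EAP : Prop :=
  ∀ (q : ℕ) (c : ℤ), 0 < q → Expn q (1 / q) (ind fun z => (q : ℤ) ∣ z - c)

/-- expansion of the Legendre symbol -/
def T_ECH : Prop :=
  ∀ m j, Expn (pr m j) (1 / Real.sqrt (pr m j)) (fun z => (chi m j z : ℂ))

/-- products of expansions with coprime periods -/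
def T_EML : Prop :=
  ∀ (D D' : ℕ) (κ κ' : ℝ) (h h' : ℤ → ℂ), 0 < D → 0 < D' → Nat.Coprime D D' →
    Expn D κ h → Expn D' κ' h' → Expn (D * D') (κ * κ') (fun z => h z * h' z)

/-- expansions are multipliers -/
def T_EMB : Prop :=
  ∀ (D : ℕ) (κ : ℝ) (h : ℤ → ℂ), Expn D κ h → MulB h (D * κ)

/-- alternating sums for periodic weights -/
def T_FAP : Prop :=
  ∀ (D : ℕ) (κ : ℝ) (h : ℤ → ℂ), 0 < D → Expn D κ h →
    ∀ N : ℕ → ℕ, (∀ a, 0 < N a ∧ 16 * N a ≤ N (a + 1)) → D ^ 2 ≤ N 0 →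
    ∀ (w : ℂ), ‖w‖ = 1 → ∀ L : ℕ,
    ‖∑ a ∈ Finset.range L, (-1) ^ a * av (N a) h w‖ ≤ 9 * κ

/-- one family of stations -/
def T_FAM : Prop :=
  ∀ (n k M : ℕ) (w : ℂ), ‖w‖ = 1 →
    ‖∑ a ∈ (Finset.range M).filter (fun a => n < 2 ^ a ∧ k < 2 ^ a ∧ slot n (2 ^ a + k) < M),
      ∑ z ∈ Finset.Ico (NN (slot n (2 ^ a + k)) : ℤ) (2 * NN (slot n (2 ^ a + k))),
        wx n (2 ^ a + k) z * w ^ z‖ ≤ 11 * (3 / 4) ^ (n + k)

/-- decomposition of the weight into families -/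
def T_DEC : Prop :=
  ∀ (S : Set ℕ) (M : ℕ) (w : ℂ), ‖w‖ = 1 →
    ‖∑ z ∈ Finset.Ico (0 : ℤ) (NN M), GG S z * w ^ z‖ ≤ 2 +
      ∑ n ∈ Finset.range M, ∑ k ∈ Finset.range M,
        ‖∑ a ∈ (Finset.range M).filter (fun a => n < 2 ^ a ∧ k < 2 ^ a ∧ slot n (2 ^ a + k) < M),
          ∑ z ∈ Finset.Ico (NN (slot n (2 ^ a + k)) : ℤ) (2 * NN (slot n (2 ^ a + k))),
            wx n (2 ^ a + k) z * w ^ z‖

/-- the weights are uniformly bounded functionals -/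
def T_TOT : Prop :=
  ∀ (S : Set ℕ) (M : ℕ) (w : ℂ), ‖w‖ = 1 →
    ‖∑ z ∈ Finset.Ico (0 : ℤ) (NN M), GG S z * w ^ z‖ ≤ 200

/-- calculus of multipliers -/
def T_MUL : Prop :=
  (∀ M C, MulB M C → 0 ≤ C) ∧
  (∀ M C C', MulB M C → C ≤ C' → MulB M C') ∧
  (∀ M M' C C', MulB M C → MulB M' C' → MulB (fun z => M z + M' z) (C + C')) ∧
  (∀ M M' C C', MulB M C → MulB M' C' → MulB (fun z => M z - M' z) (C + C')) ∧
  (∀ M M' C C', MulB M C → MulB M' C' → MulB (fun z => M z * M' z) (C * C')) ∧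
  (∀ M C (c : ℂ), MulB M C → MulB (fun z => c * M z) (‖c‖ * C)) ∧
  (∀ c : ℂ, MulB (fun _ => c) ‖c‖) ∧
  (∀ M C, MulB M C → ∀ f, ∃ x, Act M f x ∧ ‖x‖ ≤ C * ‖f‖) ∧
  (∀ M C, MulB M C → ∀ f x, Act M f x → ‖x‖ ≤ C * ‖f‖) ∧
  (∀ M f x y, Act M f x → Act M f y → x = y)

/-- the cut-offs are bounded multipliers and kernels -/
def T_TRP : Prop :=
  (∀ r, ∃ K : L1, ‖K‖ ≤ 2 ∧ ∀ z, coeff K z = VV r z) ∧ ∀ r, MulB (fun z => (VV r z : ℂ)) 2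

/-- the cut-offs converge to the identity -/
def T_VLM : Prop :=
  ∀ (f : L1) (ε : ℝ), 0 < ε → ∃ R, ∀ r, R ≤ r → ∀ g : L1, Act (fun z => (VV r z : ℂ)) f g →
    ‖g - f‖ < ε

/-- the pieces as elements of `L¹` -/
def T_PCE : Prop :=
  ∀ n i, Valid n i → ∃ x : L1, ‖x‖ ≤ 20 * (3 / 4) ^ lvl n i ∧ ∀ z, coeff x z = pm n i z

/-- the function attached to a branch -/
def T_PTH : Prop :=
  ∀ S v a, IsBr S v a → ∃ f : L1, ∀ n i z, Reg n i z → coeff f z = pv v a n i z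

/-- limits of bounded sequences of functionals -/
def T_LIM : Prop :=
  ∀ (Φ : ℕ → (L1 →L[ℂ] ℂ)) (K : ℝ), (∀ M g, ‖Φ M g‖ ≤ K * ‖g‖) →
    ∃ Ψ : L1 →L[ℂ] ℂ, ∀ (g : L1) (c : ℂ), (∃ M₀, ∀ M, M₀ ≤ M → Φ M g = c) → Ψ g = c

/-- the limit of the tail projections -/
def T_KLM : Prop :=
  ∀ (n : ℕ) (f : L1) (ε : ℝ), 0 < ε → ∃ A, ∀ a, A ≤ a → ∀ x : L1, Act (ind (inK n a)) f x →
    ‖x - coeff f (cc n) • ex (cc n)‖ < ε

/-- the progressions are multipliers of bound one, the selector of bound independent of `a` -/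
def T_APM : Prop :=
  (∀ (q : ℕ) (c : ℤ), 0 < q → MulB (ind fun z => (q : ℤ) ∣ z - c) 1) ∧
  (∀ n a, MulB (ind (inK n a)) 1) ∧ (∀ n, MulB (ind (inh n)) 1) ∧ (∀ n, MulB (ind (ing n)) 1) ∧
  (∀ m j, MulB (fun z => (chi m j z : ℂ)) (Real.sqrt (pr m j))) ∧
  (∀ n, ∃ C, ∀ a, MulB (tr n a) C)

/-- the relations for a functional which kills the classes -/
def T_RLS : Prop :=
  ∀ S, IsTree S → ∀ (Λ : L1 →L[ℂ] ℂ) (f : L1), Kil S Λ → f ∈ Amax (rel S) →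
    Rels S (fun z => coeff f z * Λ (ex z))

/-- a functional of a multiple supported in singleton classes vanishes -/
def T_SGV : Prop :=
  ∀ S, IsTree S → ∀ (Λ : L1 →L[ℂ] ℂ), Kil S Λ → ∀ x : L1,
    (∀ z, lab S z ≠ Lab.sg z → coeff x z = 0) → Λ x = 0

/-- the limit formula for the stations of a node -/
def T_NOD : Prop :=
  ∀ S, IsTree S → ∀ (Λ : L1 →L[ℂ] ℂ) (f : L1), Kil S Λ → f ∈ Amax (rel S) → ∀ n ∈ S,
    ∀ x y : L1, Act (ind (inh n)) f x → Act (ind (ing n)) f y →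
    Tendsto (fun a => -∑ b ∈ kids S n a,
        gA (fun z => coeff f z * Λ (ex z)) (n + 2 ^ b) (2 ^ (b + 1))) atTop
      (𝓝 (Λ x + Λ y - gA (fun z => coeff f z * Λ (ex z)) n (2 ^ Nat.size n)))

/-- the limit formula for the progressions -/
def T_KSP : Prop :=
  ∀ S, IsTree S → ∀ (Λ : L1 →L[ℂ] ℂ) (f : L1), Kil S Λ → ∀ n ∈ S, ∀ x y u : L1,
    Act (ind (inh n)) f x → Act (ind (ing n)) f y → Act (ind (inK n (Nat.size n))) f u →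
    ∀ t : ℕ → L1, (∀ b, Act (ind (inK (n + 2 ^ b) (b + 1))) f (t b)) →
    Tendsto (fun a => ∑ b ∈ kids S n a, Λ (t b)) atTop (𝓝 (Λ u - Λ x - Λ y))

/-- without a branch, functionals which kill the classes kill the class-constant functions -/
def T_LEK : Prop :=
  ∀ S, IsTree S → ¬ Branch S → ∀ (Λ : L1 →L[ℂ] ℂ) (f : L1), Kil S Λ → f ∈ Amax (rel S) → Λ f = 0

/-- Hahn-Banach -/
def T_HBA : Prop :=
  ∀ S, IsTree S → (∀ n, {m | rel S n m}.Finite) →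
    (∀ (Λ : L1 →L[ℂ] ℂ) (f : L1), Kil S Λ → f ∈ Amax (rel S) → Λ f = 0) → HasSynthesis (rel S)

def T_POS : Prop := ∀ S, IsTree S → ¬ Branch S → HasSynthesis (rel S)

def T_NEG : Prop := ∀ S, IsTree S → Branch S → ¬ HasSynthesis (rel S)

/-! ## C. Descriptive set theory -/

/-- coding of trees of lists -/
def T_COD : Prop :=
  ∀ T : List ℕ → Bool, IsTree (ST T) ∧ (Branch (ST T) ↔ T ∈ Pool.Agent.H72.IllF)

/-- the relation depends locally on the tree -/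
def T_LOC : Prop :=
  ∀ m n : ℤ, ∃ F : Finset ℕ, ∀ S S' : Set ℕ, (∀ k ∈ F, k ∈ S ↔ k ∈ S') →
    (rel S m n ↔ rel S' m n)

/-- continuity of the relation -/
def T_CON : Prop := Continuous (fun T : List ℕ → Bool => relB (ST T))

/-- analytic sets are reducible to ill-founded trees -/
def T_RED : Prop :=
  ∀ A : Set (ℕ → ℕ), MeasureTheory.AnalyticSet A →
    ∃ F : (ℕ → ℕ) → (List ℕ → Bool), Continuous F ∧ ∀ x, x ∈ A ↔ F x ∈ Pool.Agent.H72.IllF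

/-- failure of synthesis -/
def T_CHR : Prop :=
  ∀ r : Setoid ℤ, ¬ HasSynthesis r ↔
    ((∀ m n, {k | r m k}.Infinite → {k | r n k}.Infinite → r m n) ∧ ¬ Approx r)

/-- failure of synthesis is an analytic property -/
def T_ANL : Prop :=
  MeasureTheory.AnalyticSet {ρ : ℤ → ℤ → Bool | ∃ r : Setoid ℤ, IsRel ρ r ∧ ¬ HasSynthesis r}

/-- final theorem -/
def T_FINAL : Prop :=
  (∀ A : Set (ℕ → ℕ), MeasureTheory.AnalyticSet A →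
    ∃ F : (ℕ → ℕ) → (ℤ → ℤ → Bool), Continuous F ∧ ∀ x, ∃ r : Setoid ℤ, IsRel (F x) r ∧
      (∀ n, {m | r n m}.Finite) ∧ (x ∈ A ↔ ¬ HasSynthesis r)) ∧
  MeasureTheory.AnalyticSet {ρ : ℤ → ℤ → Bool | ∃ r : Setoid ℤ, IsRel ρ r ∧ ¬ HasSynthesis r} ∧
  ¬ MeasurableSet {ρ : ℤ → ℤ → Bool | ∃ r : Setoid ℤ, IsRel ρ r ∧ HasSynthesis r} ∧
  ¬ MeasurableSet {ρ : ℤ → ℤ → Bool | ∃ r : Setoid ℤ, IsRel ρ r ∧ (∀ n, {m | r n m}.Finite) ∧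
    HasSynthesis r}

end Pool.Agent.H85.SC
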