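import Pool.Agent.H85.SC.Targets

open Filter Topology MeasureTheory

namespace Pool.Agent.H85.SC

open Pool.Agent.H87.Synth Pool.Agent.H72

theorem isRel_relB (S : Set ℕ) : IsRel (relB S) (rel S) := by
  intro m n
  simp [relB]

theorem isRel_unique {ρ : ℤ → ℤ → Bool} {r r' : Setoid ℤ} (h : IsRel ρ r) (h' : IsRel ρ r') :
    r = r' := by
  ext m n
  rw [← h m n, ← h' m n]

theorem final (hPOS : T_POS) (hNEG : T_NEG) (hCOD : T_COD) (hCON : T_CON) (hRED : T_RED)
    (hANL : T_ANL) (hFIN : T_FIN) : T_FINAL := by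
  have hsyn : ∀ T : List ℕ → Bool, (T ∈ IllF ↔ ¬ HasSynthesis (rel (ST T))) := by
    intro T
    constructor
    · intro h
      exact hNEG _ (hCOD T).1 ((hCOD T).2.2 h)
    · intro h
      by_contra hT
      exact h (hPOS _ (hCOD T).1 fun hB => hT ((hCOD T).2.1 hB))
  refine ⟨?_, hANL, ?_, ?_⟩
  · intro A hA
    obtain ⟨F, hF, hFA⟩ := hRED A hA
    refine ⟨fun x => relB (ST (F x)), hCON.comp hF, fun x => ⟨rel (ST (F x)), isRel_relB _,
      hFIN _ (hCOD _).1, ?_⟩⟩
    rw [hFA, hsyn]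
  · intro hM
    apply not_measurable_IllF
    have h1 : IllF = ((fun T : List ℕ → Bool => relB (ST T)) ⁻¹'
        {ρ : ℤ → ℤ → Bool | ∃ r : Setoid ℤ, IsRel ρ r ∧ HasSynthesis r})ᶜ := by
      ext T
      rw [Set.mem_compl_iff, Set.mem_preimage, Set.mem_ofPred_eq, hsyn]
      constructor
      · rintro h ⟨r, hr, hr'⟩
        rw [isRel_unique hr (isRel_relB _)] at hr'
        exact h hr'
      · intro h h'
        exact h ⟨_, isRel_relB _, h'⟩
    rw [h1]
    exact (hCON.measurable hM).compl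
  · intro hM
    apply not_measurable_IllF
    have h1 : IllF = ((fun T : List ℕ → Bool => relB (ST T)) ⁻¹'
        {ρ : ℤ → ℤ → Bool | ∃ r : Setoid ℤ, IsRel ρ r ∧ (∀ n, {m | r n m}.Finite) ∧
          HasSynthesis r})ᶜ := by
      ext T
      rw [Set.mem_compl_iff, Set.mem_preimage, Set.mem_ofPred_eq, hsyn]
      constructor
      · rintro h ⟨r, hr, _, hr'⟩
        rw [isRel_unique hr (isRel_relB _)] at hr'
        exact h hr'
      · intro h h'
        exact h ⟨_, isRel_relB _, hFIN _ (hCOD _).1, h'⟩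
    rw [h1]
    exact (hCON.measurable hM).compl

end Pool.Agent.H85.SC
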