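import Mathlib
import Pool.Agent.H87.Synth.Neg
import Pool.Agent.H87.Synth.Grid
import Pool.Agent.H72.IllFounded

/-!
# The complexity of the synthesis property: definitions
-/

namespace Pool.Agent.H85.SC

open Pool.Agent.H87.Synth

theorem exists_pr (m j : ℕ) : ∃ p : ℕ, p.Prime ∧ 2 ^ (m + 2 + j) < p ∧ p ≤ 2 ^ (m + 3 + j) := by
  obtain ⟨p, hp, h1, h2⟩ := Nat.exists_prime_lt_and_le_two_mul (2 ^ (m + 2 + j)) (by positivity)
  refine ⟨p, hp, h1, h2.trans (le_of_eq ?_)⟩
  rw [show m + 3 + j = (m + 2 + j) + 1 by ring, pow_succ]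
  ring

/-- a prime between `2^(m+2+j)` and `2^(m+3+j)` -/
noncomputable def pr (m j : ℕ) : ℕ := (exists_pr m j).choose

theorem pr_prime (m j : ℕ) : (pr m j).Prime := (exists_pr m j).choose_spec.1
theorem pr_gt (m j : ℕ) : 2 ^ (m + 2 + j) < pr m j := (exists_pr m j).choose_spec.2.1
theorem pr_le (m j : ℕ) : pr m j ≤ 2 ^ (m + 3 + j) := (exists_pr m j).choose_spec.2.2

instance fact_pr (m j : ℕ) : Fact (pr m j).Prime := ⟨pr_prime m j⟩

/-- the three characters of level `m` -/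
noncomputable def chi (m j : ℕ) (z : ℤ) : ℤ := legendreSym (pr m j) z

/-- the period of the characters of level `m` -/
noncomputable def PP (m : ℕ) : ℕ := pr m 0 * pr m 1 * pr m 2

noncomputable def QQ (r : ℕ) : ℕ := 4 ^ (r + 2) * ∏ j ∈ Finset.range (r + 1), PP j

/-- the positions of the slots: slot `r` is the interval `[NN r, 2 NN r)` -/
noncomputable def NN (r : ℕ) : ℕ := QQ r ^ 2

/-- binary logarithm -/
def lg (i : ℕ) : ℕ := Nat.log 2 i

/-- the slot of the station `(n, i)` -/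
def slot (n i : ℕ) : ℕ := i ^ 2 + n

/-- the level of the station `(n, i)` -/
def lvl (n i : ℕ) : ℕ := n + (i - 2 ^ lg i)

/-- the binary digits of `n`, read in base four -/
def spread : ℕ → ℕ
  | 0 => 0
  | n + 1 => (n + 1) % 2 + 4 * spread ((n + 1) / 2)
decreasing_by omega

/-- the number with base four digits zero and two given by the binary digits of `n` -/
def cc (n : ℕ) : ℤ := 2 * (spread n : ℤ)

/-- the progression of `n` modulo `4^a` -/
def inK (n a : ℕ) (z : ℤ) : Prop := (4 : ℤ) ^ a ∣ z - cc n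

/-- the progression of the chain stations of the node `n` -/
def inh (n : ℕ) (z : ℤ) : Prop := (4 : ℤ) ^ (Nat.size n + 1) ∣ z - cc n - 4 ^ Nat.size n

/-- the progression of the transfer stations of the node `n` -/
def ing (n : ℕ) (z : ℤ) : Prop := (4 : ℤ) ^ (Nat.size n + 1) ∣ z - cc n - 3 * 4 ^ Nat.size n

/-- the progression of the station `(n, i)` -/
def inP (n i : ℕ) (z : ℤ) : Prop := (i = 2 ^ lg i ∧ inh n z) ∨ (i ≠ 2 ^ lg i ∧ ing n z)

/-- the stations: `2^a ≤ i < 2^(a+1)`, `n < 2^a` -/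
def Valid (n i : ℕ) : Prop := 1 ≤ i ∧ n < 2 ^ lg i

/-- the region of the station `(n, i)` -/
def Reg (n i : ℕ) (z : ℤ) : Prop :=
  Valid n i ∧ (NN (slot n i) : ℤ) ≤ z ∧ z < 2 * NN (slot n i) ∧ inP n i z ∧
    chi (lvl n i) 0 z ≠ 0 ∧ chi (lvl n i) 1 z ≠ 0 ∧ chi (lvl n i) 2 z ≠ 0

/-- the three signs at a point of the region of `(n, i)` -/
noncomputable def s1 (n i : ℕ) (z : ℤ) : ℤ := chi (lvl n i) 0 z
noncomputable def s2 (n i : ℕ) (z : ℤ) : ℤ := chi (lvl n i) 1 z
noncomputable def s3 (n i : ℕ) (z : ℤ) : ℤ := (-1) ^ lg i * chi (lvl n i) 2 z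

open Classical in
/-- the points of the region as a finite set -/
noncomputable def RS (n i : ℕ) : Finset ℤ :=
  (Finset.Ico (NN (slot n i) : ℤ) (2 * NN (slot n i))).filter (Reg n i)

open Classical in
/-- absorbing points with sign `s` -/
noncomputable def FA (n i : ℕ) (s : ℤ) : Finset ℤ :=
  (RS n i).filter fun z => s1 n i z = s ∧ s2 n i z = s ∧ s3 n i z = s

open Classical in
/-- stay points with sign `s` -/
noncomputable def FS (n i : ℕ) (s : ℤ) : Finset ℤ :=
  (RS n i).filter fun z => s1 n i z = s ∧ s2 n i z = s ∧ s3 n i z = -s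

open Classical in
/-- drop points with sign `s` -/
noncomputable def FD (n i : ℕ) (s : ℤ) : Finset ℤ :=
  (RS n i).filter fun z => s1 n i z ≠ s2 n i z ∧ s3 n i z = s

/-- labels of the classes -/
inductive Lab : Type
  | sg (z : ℤ) : Lab
  | inn (n i : ℕ) (s : ℤ) : Lab
  | lst (n i : ℕ) : Lab
  | ldr (n i : ℕ) : Lab

open Classical in
/-- the label of a point of the region of `(n, i)` -/
noncomputable def labAt (S : Set ℕ) (n i : ℕ) (z : ℤ) : Lab :=
  if s1 n i z = s2 n i z then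
    if s1 n i z = s3 n i z then
      (if i = 1 then Lab.sg z else Lab.inn n i (s1 n i z))
    else
      (if i = 2 ^ lg i then Lab.inn n (2 * i) (s1 n i z) else Lab.lst n i)
  else
    if i + 1 < 2 ^ (lg i + 1) then Lab.inn n (i + 1) (s3 n i z)
    else if n + 2 ^ lg i ∈ S then Lab.inn (n + 2 ^ lg i) (i + 1) (s3 n i z)
    else Lab.ldr n i

open Classical in
/-- the label of an integer -/
noncomputable def lab (S : Set ℕ) (z : ℤ) : Lab :=
  if h : ∃ p : ℕ × ℕ, p.1 ∈ S ∧ Reg p.1 p.2 z then labAt S h.choose.1 h.choose.2 z else Lab.sg z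

/-- the equivalence relation attached to `S` -/
noncomputable def rel (S : Set ℕ) : Setoid ℤ := Setoid.ker (lab S)

/-- trees: the parent of a node is obtained by removing the top binary digit -/
def IsTree (S : Set ℕ) : Prop := 0 ∈ S ∧ ∀ n a, n < 2 ^ a → n + 2 ^ a ∈ S → n ∈ S

/-- an infinite branch -/
def Branch (S : Set ℕ) : Prop :=
  ∃ v : ℕ → ℕ, v 0 = 0 ∧ (∀ k, v k ∈ S) ∧ ∀ k, ∃ a, v k < 2 ^ a ∧ v (k + 1) = v k + 2 ^ a

open Classical in
/-- the emitting points joined to the absorbing points of `(n, i)` with sign `s` -/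
noncomputable def EM (n i : ℕ) (s : ℤ) : Finset ℤ :=
  if i = 2 ^ lg i then
    (if n < 2 ^ (lg i - 1) then FS n (2 ^ (lg i - 1)) s
      else FD (n - 2 ^ (lg i - 1)) (i - 1) s)
  else FD n (i - 1) s

/-- number of points with a given sign pattern -/
noncomputable def cnt (n i : ℕ) : ℕ :=
  NN (slot n i) / (4 ^ (Nat.size n + 1) * PP (lvl n i)) *
    ((pr (lvl n i) 0 - 1) / 2 * ((pr (lvl n i) 1 - 1) / 2) * ((pr (lvl n i) 2 - 1) / 2))

/-- the weight at a point of the region of `(n, i)` -/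
noncomputable def wt (n i : ℕ) (z : ℤ) : ℂ :=
  -((2 : ℂ) ^ lvl n i / cnt n i) * ((s1 n i z * s2 n i z * s3 n i z : ℤ) : ℂ)

/-- multipliers of `L¹` with bound `C` -/
def MulB (M : ℤ → ℂ) (C : ℝ) : Prop :=
  ∃ T : L1 →L[ℂ] L1, (∀ f z, coeff (T f) z = M z * coeff f z) ∧ ∀ f, ‖T f‖ ≤ C * ‖f‖

/-- the trapezoid -/
noncomputable def trap (A B : ℕ) (z : ℤ) : ℝ :=
  max 0 (min 1 (((B : ℝ) - |(z : ℝ)|) / (B - A)))

/-- the multiplier cutting after slot `r` -/
noncomputable def VV (r : ℕ) (z : ℤ) : ℝ := trap (2 * NN r) (NN (r + 1)) z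

/-- the indicator function of a property -/
noncomputable def ind (P : ℤ → Prop) (z : ℤ) : ℂ := by
  classical exact if P z then 1 else 0

/-- the function `z ↦ h z` is a combination of the `D` characters of period `D` with coefficients
at most `κ` -/
def Expn (D : ℕ) (κ : ℝ) (h : ℤ → ℂ) : Prop :=
  ∃ a : ℕ → ℂ, (∀ k, ‖a k‖ ≤ κ) ∧
    ∀ z : ℤ, h z = ∑ k ∈ Finset.range D, a k * ze D ^ ((k : ℤ) * z)

/-- average of `w^z` over the slot starting at `N`, weighted by `h` -/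
noncomputable def av (N : ℕ) (h : ℤ → ℂ) (w : ℂ) : ℂ :=
  (1 / (N : ℂ)) * ∑ z ∈ Finset.Ico (N : ℤ) (2 * N), h z * w ^ z

/-- the weight of the station `(n, i)` as a function on its slot -/
noncomputable def wx (n i : ℕ) (z : ℤ) : ℂ :=
  -((2 : ℂ) ^ lvl n i / cnt n i) * (-1) ^ lg i *
    (ind (inP n i) z * (chi (lvl n i) 0 z : ℂ) * (chi (lvl n i) 1 z : ℂ) * (chi (lvl n i) 2 z : ℂ))

open Classical in
/-- the weight for `S`: the weights of all regions of nodes of `S`, without the absorbing points of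
the root station -/
noncomputable def GG (S : Set ℕ) (z : ℤ) : ℂ :=
  if h : ∃ p : ℕ × ℕ, p.1 ∈ S ∧ Reg p.1 p.2 z then
    (if h.choose.2 = 1 ∧ s1 h.choose.1 h.choose.2 z = s2 h.choose.1 h.choose.2 z ∧
        s1 h.choose.1 h.choose.2 z = s3 h.choose.1 h.choose.2 z then 0
      else wt h.choose.1 h.choose.2 z)
  else 0

open Classical in
/-- the values of the function attached to a branch at the points of the region of `(n, i)` -/
noncomputable def pv (v a : ℕ → ℕ) (n i : ℕ) (z : ℤ) : ℂ :=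
  if ∃ k, n = v k ∧ i = 2 ^ lg i ∧ lg i < a k then
    (1 / 2) ^ lvl n i * (((s1 n i z : ℂ) + s2 n i z) / 2)
  else if ∃ k, n = v k ∧ lg i = a k then
    (1 / 2) ^ lvl n i * (((s1 n i z : ℂ) + s2 n i z) / 4 + (s3 n i z : ℂ) / 2)
  else 0

/-- a branch with its exponents -/
def IsBr (S : Set ℕ) (v a : ℕ → ℕ) : Prop :=
  v 0 = 0 ∧ (∀ k, v k ∈ S) ∧ ∀ k, v k < 2 ^ a k ∧ v (k + 1) = v k + 2 ^ a k

open Classical in
/-- the coefficients of the piece of the station `(n, i)` -/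
noncomputable def pm (n i : ℕ) (z : ℤ) : ℂ :=
  (1 / 2) ^ lvl n i *
    (if i = 2 ^ lg i then
      ind (inh n) z * (((chi (lvl n i) 0 z : ℂ) + chi (lvl n i) 1 z) / 4 *
          ((VV (slot n i) z : ℂ) + VV (slot n i - 1) z) +
        (-1) ^ lg i * (chi (lvl n i) 2 z : ℂ) / 2 *
          ((VV (slot n i) z : ℂ) - VV (slot n i - 1) z))
    else
      ind (ing n) z * (((chi (lvl n i) 0 z : ℂ) + chi (lvl n i) 1 z) / 4 +
        (-1) ^ lg i * (chi (lvl n i) 2 z : ℂ) / 2) *
          ((VV (slot n i) z : ℂ) - VV (slot n i - 1) z))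

/-- the functional `Λ` kills the idempotents of the classes -/
def Kil (S : Set ℕ) (Λ : L1 →L[ℂ] ℂ) : Prop :=
  ∀ (C : Finset ℤ) (z : ℤ), (∀ w, w ∈ C ↔ rel S z w) → Λ (eS C) = 0

/-- sums over absorbing, stay and drop points -/
noncomputable def gA (g : ℤ → ℂ) (n i : ℕ) : ℂ := ∑ z ∈ FA n i 1, g z + ∑ z ∈ FA n i (-1), g z
noncomputable def gS (g : ℤ → ℂ) (n i : ℕ) : ℂ := ∑ z ∈ FS n i 1, g z + ∑ z ∈ FS n i (-1), g z
noncomputable def gD (g : ℤ → ℂ) (n i : ℕ) : ℂ := ∑ z ∈ FD n i 1, g z + ∑ z ∈ FD n i (-1), g z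

/-- the relations between the sums of `g z = coeff f z * Λ (ex z)` -/
def Rels (S : Set ℕ) (g : ℤ → ℂ) : Prop :=
  (∀ z, lab S z = Lab.sg z → g z = 0) ∧
  (∀ n i s, n ∈ S → Valid n i → i ≠ 1 → (s = 1 ∨ s = -1) →
    ∑ z ∈ FA n i s, g z + ∑ z ∈ EM n i s, g z = 0) ∧
  (∀ n i, n ∈ S → Valid n i → i ≠ 2 ^ lg i → gS g n i = 0) ∧
  (∀ n i, n ∈ S → Valid n i → i + 1 = 2 ^ (lg i + 1) → n + 2 ^ lg i ∉ S → gD g n i = 0)

/-- the multiplier which selects the stay points of the chain stations of node `n` -/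
noncomputable def tr (n a : ℕ) (z : ℤ) : ℂ :=
  ind (inh n) z * ((1 + (chi n 0 z : ℂ) * chi n 1 z) *
    (1 - (-1) ^ a * ((chi n 0 z : ℂ) * chi n 2 z)) / 4)

/-- `x` is obtained from `f` by the multiplier `M` -/
def Act (M : ℤ → ℂ) (f x : L1) : Prop := ∀ z, coeff x z = M z * coeff f z

/-- the sequence coded by the binary digits of `n` -/
def dec (n : ℕ) : List ℕ :=
  if h : n = 0 then [] else
    have : n - 2 ^ Nat.log 2 n < n := Nat.sub_lt (Nat.pos_of_ne_zero h) (by positivity)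
    dec (n - 2 ^ Nat.log 2 n) ++ [Nat.log 2 n - Nat.size (n - 2 ^ Nat.log 2 n)]

/-- the tree of naturals attached to a tree of lists -/
def ST (T : List ℕ → Bool) : Set ℕ :=
  {n | n = 0 ∨ ∀ j ≤ (dec n).length, T ((dec n).take j) = true}

open Classical in
/-- the relation as a Boolean matrix -/
noncomputable def relB (S : Set ℕ) : ℤ → ℤ → Bool := fun m n => decide (rel S m n)

/-- the Boolean matrix `ρ` is the graph of `r` -/
def IsRel (ρ : ℤ → ℤ → Bool) (r : Setoid ℤ) : Prop := ∀ m n, ρ m n = true ↔ r m n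

open Classical in
/-- the exponents `b < a` for which `n + 2^b` is a child of `n` in `S` -/
noncomputable def kids (S : Set ℕ) (n a : ℕ) : Finset ℕ :=
  (Finset.Ico (Nat.size n) a).filter fun b => n + 2 ^ b ∈ S

open Classical in
/-- the stations of nodes of `S` with slot less than `M` -/
noncomputable def stn (S : Set ℕ) (M : ℕ) : Finset (ℕ × ℕ) :=
  (Finset.range M ×ˢ Finset.range M).filter
    fun p => p.1 ∈ S ∧ Valid p.1 p.2 ∧ slot p.1 p.2 < M

end Pool.Agent.H85.SC
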