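import Pool.Agent.H85.SC.NEG
import Pool.Agent.H85.SC.LEK
import Pool.Agent.H85.SC.FINAL
import Pool.Agent.H29.SC.ALT
import Pool.Agent.H29.SC.ROO
import Pool.Agent.H29.SC.ECH
import Pool.Agent.H29.SC.CNT
import Pool.Agent.H35.SC.ANL
import Pool.Agent.H35.SC.CHR
import Pool.Agent.H35.SC.COD
import Pool.Agent.H37.SC.APD
import Pool.Agent.H37.SC.DSJ
import Pool.Agent.H37.SC.FIB
import Pool.Agent.H65.SC.APM
import Pool.Agent.H65.SC.EMB
import Pool.Agent.H65.SC.TRP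
import Pool.Agent.H24.SC.CCA
import Pool.Agent.H24.SC.STS
import Pool.Agent.H24.SC.DEC
import Pool.Agent.H18.SC.CNB
import Pool.Agent.H18.SC.PCE
import Pool.Agent.H41.SC.LAB
import Pool.Agent.H19.SC.NNA
import Pool.Agent.H99.SC.FAM
import Pool.Agent.H99.SC.PTH
import Pool.Agent.H27.SC.GSM
import Pool.Agent.H27.SC.PCC
import Pool.Agent.H27.SC.TEL
import Pool.Agent.H4.SC.HBA
import Pool.Agent.H4.SC.KLM
import Pool.Agent.H4.SC.MUL
import Pool.Agent.H4.SC.RED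
import Pool.Agent.H76.SC.KSP
import Pool.Agent.H76.SC.SUP
import Pool.Agent.H89.SC.NOD
import Pool.Agent.H87.SC.PPR
import Pool.Agent.H87.SC.TOT
import Pool.Agent.H87.SC.VVS
import Pool.Agent.H14.SC.PVL

namespace Pool.Agent.H85.SC

theorem final_all : T_FINAL := by
  have NNA : T_NNA := Pool.Agent.H19.SC.NNA_proof
  have SLT : T_SLT := Pool.Agent.H19.SC.SLT_proof
  have DIV : T_DIV := Pool.Agent.H19.SC.DIV_proof
  have UNQ : T_UNQ := Pool.Agent.H19.SC.UNQ_proof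
  have PRT : T_PRT := Pool.Agent.H19.SC.PRT_proof
  have LAB : T_LAB := Pool.Agent.H41.SC.labm UNQ
  have CCA : T_CCA := Pool.Agent.H24.SC.cca
  have APD : T_APD := Pool.Agent.H37.SC.apd CCA
  have FIB : T_FIB := Pool.Agent.H37.SC.fib LAB
  have DSJ : T_DSJ := Pool.Agent.H37.SC.dsj LAB UNQ
  have FIN : T_FIN := Pool.Agent.H41.SC.finm FIB LAB
  have CNT : T_CNT := Pool.Agent.H29.SC.cntm DIV
  have CNB : T_CNB := Pool.Agent.H18.SC.cnb DIV
  have GSM : T_GSM := Pool.Agent.H27.SC.gsm FIB LAB DSJ CNT CNB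
  have PCC : T_PCC := Pool.Agent.H27.SC.pcc FIB LAB
  have STS : T_STS := Pool.Agent.H24.SC.sts LAB DSJ CNT CNB
  have PPR : T_PPR := Pool.Agent.H87.SC.ppr PRT STS LAB
  have VVS : T_VVS := Pool.Agent.H87.SC.vvs NNA
  have PVL : T_PVL := Pool.Agent.H14.SC.pvl VVS APD LAB
  have TEL : T_TEL := Pool.Agent.H27.SC.tel DSJ
  have SUP : T_SUP := Pool.Agent.H76.SC.sup LAB VVS APD UNQ NNA
  have SUX : T_SUX := Pool.Agent.H76.SC.sux LAB DSJ VVS APD NNA
  have ALT : T_ALT := Pool.Agent.H29.SC.alt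
  have ROO : T_ROO := Pool.Agent.H29.SC.roo ALT
  have EAP : T_EAP := Pool.Agent.H29.SC.eap
  have ECH : T_ECH := Pool.Agent.H29.SC.ech
  have EML : T_EML := Pool.Agent.H29.SC.eml
  have EMB : T_EMB := Pool.Agent.H65.SC.emb
  have FAP : T_FAP := Pool.Agent.H29.SC.fap ROO
  have FAM : T_FAM := Pool.Agent.H99.SC.fam FAP EAP ECH EML CNB DIV NNA SLT
  have DEC : T_DEC := Pool.Agent.H24.SC.dec PRT LAB CNT CNB
  have TOT : T_TOT := Pool.Agent.H87.SC.tot DEC FAM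
  have MUL : T_MUL := Pool.Agent.H4.SC.mul
  have TRP : T_TRP := Pool.Agent.H65.SC.trp NNA
  have VLM : T_VLM := Pool.Agent.H65.SC.vlm NNA TRP MUL VVS
  have APM : T_APM := Pool.Agent.H65.SC.apm EAP ECH EMB MUL
  have PCE : T_PCE := Pool.Agent.H18.SC.pce TRP APM MUL
  have PTH : T_PTH := Pool.Agent.H99.SC.pth PCE PVL
  have LIM : T_LIM := Pool.Agent.H4.SC.lim
  have KLM : T_KLM := Pool.Agent.H4.SC.klm APM MUL
  have RLS : T_RLS := Pool.Agent.H41.SC.rlsm FIB DSJ LAB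
  have SGV : T_SGV := Pool.Agent.H41.SC.sgvm LAB
  have NOD : T_NOD := Pool.Agent.H89.SC.nod TEL SUP SUX RLS APM TRP VLM MUL VVS NNA
  have KSP : T_KSP := Pool.Agent.H76.SC.K.ksp APD SGV KLM APM MUL LAB
  have LEK : T_LEK := lek NOD KSP APM MUL RLS LAB
  have HBA : T_HBA := Pool.Agent.H4.SC.hba
  have POS : T_POS := pos HBA LEK FIN
  have NEG : T_NEG := neg PTH PCC PPR TOT LIM GSM FIN LAB NNA
  have COD : T_COD := Pool.Agent.H35.SC.cod
  have LOC : T_LOC := Pool.Agent.H41.SC.locm UNQ LAB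
  have CON : T_CON := Pool.Agent.H41.SC.conm LOC
  have RED : T_RED := Pool.Agent.H4.SC.red
  have CHR : T_CHR := Pool.Agent.H35.SC.chr
  have ANL : T_ANL := Pool.Agent.H35.SC.anl CHR
  exact final POS NEG COD CON RED ANL FIN

end Pool.Agent.H85.SC
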