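import Pool.Agent.H85.SC.Targets

open MeasureTheory AddCircle

namespace Pool.Agent.H85.SC

open Pool.Agent.H87.Synth

theorem fourier_neg_zpow (z : ℤ) (x : Circ) :
    (fourier (-z) x : ℂ) = (fourier (-1) x : ℂ) ^ z := by
  have h : ∀ k : ℕ, (fourier (-(k : ℤ)) x : ℂ) = (fourier (-1) x : ℂ) ^ k := by
    intro k
    induction k with
    | zero => simp
    | succ k ih =>
      rw [pow_succ, ← ih, ← fourier_add]
      congr 2
      push_cast
      ring
  obtain ⟨k, rfl | rfl⟩ := z.eq_nat_or_neg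
  · rw [h k, zpow_natCast]
  · rw [zpow_neg, zpow_natCast, ← h k]
    have h1 : (fourier (-(k : ℤ)) x : ℂ) * fourier (k : ℤ) x = 1 := by
      rw [← fourier_add, neg_add_cancel, fourier_zero]
    rw [neg_neg]
    exact (eq_inv_of_mul_eq_one_right h1)

theorem neg (hPTH : T_PTH) (hPCC : T_PCC) (hPPR : T_PPR) (hTOT : T_TOT) (hLIM : T_LIM)
    (hGSM : T_GSM) (hFIN : T_FIN) (hLAB : T_LAB) (hNNA : T_NNA) : T_NEG := by
  intro S hS hBr
  obtain ⟨v, hv0, hvS, hv⟩ := hBr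
  choose a ha using hv
  have hbr : IsBr S v a := ⟨hv0, hvS, ha⟩
  obtain ⟨f, hf⟩ := hPTH S v a hbr
  have hfA : f ∈ Amax (rel S) := fun m n h => hPCC S hS v a hbr (coeff f) hf m n h
  -- functionals
  let Φ : ℕ → (L1 →L[ℂ] ℂ) := fun M => ∑ z ∈ Finset.Ico (0 : ℤ) (NN M), GG S z • coeffL z
  have hΦ : ∀ M g, Φ M g = ∑ z ∈ Finset.Ico (0 : ℤ) (NN M), GG S z * coeff g z := by
    intro M g
    simp only [Φ, sum_apply, smul_apply, coeffL_apply, smul_eq_mul]
  have hb : ∀ M g, ‖Φ M g‖ ≤ 200 * ‖g‖ := by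
    intro M g
    rw [hΦ]
    refine norm_functional_le _ _ _ ?_ g
    intro x
    have h1 := hTOT S M (fourier (-1) x) (fourier_norm_apply _ _)
    have h2 : ∑ z ∈ Finset.Ico (0 : ℤ) (NN M), GG S z * (fourier (-z) x : ℂ) =
        ∑ z ∈ Finset.Ico (0 : ℤ) (NN M), GG S z * (fourier (-1) x : ℂ) ^ z :=
      Finset.sum_congr rfl fun z _ => by rw [fourier_neg_zpow]
    rw [h2]
    exact h1
  obtain ⟨Ψ, hΨ⟩ := hLIM Φ 200 hb
  refine not_synthesis (rel S) (hFIN S hS) Ψ ?_ f hfA ?_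
  · intro C z hC
    refine hΨ _ 0 ?_
    -- large M
    obtain ⟨B, hB⟩ : ∃ B : ℕ, ∀ w ∈ C, w < B := by
      refine ⟨(∑ w ∈ C, w.natAbs) + 1, fun w hw => ?_⟩
      have h1 : w.natAbs ≤ ∑ w ∈ C, w.natAbs :=
        Finset.single_le_sum (f := fun w : ℤ => w.natAbs) (fun _ _ => Nat.zero_le _) hw
      have h2 : w ≤ w.natAbs := Int.le_natAbs
      omega
    refine ⟨B, fun M hM => ?_⟩
    rw [hΦ]
    have hG := hGSM S hS C z hC
    rw [← hG]
    have hneg : ∀ w : ℤ, w < 0 → GG S w = 0 := by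
      intro w hw
      apply hLAB.2.2.2.2.1
      intro n i _ hr
      have := hr.2.1
      have h0 : (0 : ℤ) ≤ (NN (slot n i) : ℤ) := Int.natCast_nonneg _
      linarith
    have h1 : ∑ w ∈ Finset.Ico (0 : ℤ) (NN M), GG S w * coeff (eS C) w =
        ∑ w ∈ (Finset.Ico (0 : ℤ) (NN M)).filter (fun w => w ∈ C), GG S w := by
      rw [Finset.sum_filter]
      refine Finset.sum_congr rfl fun w _ => ?_
      rw [coeff_eS]
      split_ifs <;> simp
    rw [h1]
    refine Finset.sum_subset ?_ ?_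
    · intro w hw
      exact (Finset.mem_filter.1 hw).2
    · intro w hw hw'
      apply hneg
      by_contra hcon
      apply hw'
      rw [Finset.mem_filter, Finset.mem_Ico]
      refine ⟨⟨by linarith [not_lt.1 hcon], ?_⟩, hw⟩
      have h2 := hB w hw
      have h3 := hNNA.2.2.2 M
      have h4 : (B : ℤ) ≤ M := by exact_mod_cast hM
      have h5 : (M : ℤ) + 2 ≤ NN M := by exact_mod_cast h3
      linarith
  · have h2 : Ψ f = 2 := by
      refine hΨ f 2 ⟨2, fun M hM => ?_⟩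
      rw [hΦ]
      exact hPPR S hS v a hbr (coeff f) hf M hM
    rw [h2]
    exact two_ne_zero

theorem pos (hHBA : T_HBA) (hLEK : T_LEK) (hFIN : T_FIN) : T_POS :=
  fun S hS hB => hHBA S hS (hFIN S hS) (hLEK S hS hB)

end Pool.Agent.H85.SC
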