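import Mathlib
import Pool.Agent.H87.Synth.Defs

/-!
Definitions for the statement on the complexity of the synthesis property (MP_de9001_an).
-/

namespace Pool.Agent.H85.SC

open Pool.Agent.H87.Synth

/-- The Boolean matrix `ρ` on `ℤ × ℤ` is the graph of the equivalence relation `r`. -/
def IsGraph (ρ : ℤ → ℤ → Bool) (r : Setoid ℤ) : Prop := ∀ m n, ρ m n = true ↔ r m n

/-- All classes of `r` are finite. -/
def FiniteClasses (r : Setoid ℤ) : Prop := ∀ n, {m | r n m}.Finite

/-- The set of all equivalence relations on `ℤ` which have the synthesis property, as a subset of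
the compact metrisable space of Boolean matrices. -/
def Syn : Set (ℤ → ℤ → Bool) := {ρ | ∃ r : Setoid ℤ, IsGraph ρ r ∧ HasSynthesis r}

/-- The set of all equivalence relations on `ℤ` which fail the synthesis property. -/
def NonSyn : Set (ℤ → ℤ → Bool) := {ρ | ∃ r : Setoid ℤ, IsGraph ρ r ∧ ¬ HasSynthesis r}

end Pool.Agent.H85.SC
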